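import Pool.Agent.Helper82.BR.St

/-!
# Project BR, module LIN: at most `n / 4 + 1` points on a line
-/

set_option autoImplicit false

namespace Pool.Agent.Helper88.BR

open Pool.Agent.Helper82.BR

private lemma bis (s p q : ℂ) (hp : p.im = 0) (hq : q.im = 0) (hpq : p.re ≠ q.re)
    (h : dist s p = dist s q) : 2 * s.re = p.re + q.re := by
  rw [Complex.dist_eq, Complex.dist_eq] at h
  have h1 : Complex.normSq (s - p) = Complex.normSq (s - q) := by
    rw [Complex.normSq_eq_norm_sq, Complex.normSq_eq_norm_sq, h]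
  rw [Complex.normSq_apply, Complex.normSq_apply] at h1
  simp only [Complex.sub_re, Complex.sub_im, hp, hq, sub_zero] at h1
  have h2 : (q.re - p.re) * (2 * s.re - (p.re + q.re)) = 0 := by linarith
  rcases mul_eq_zero.1 h2 with h3 | h3
  · exact absurd (by linarith) hpq
  · linarith

theorem hLIN (hSUM : StSUM) : StLIN := by
  classical
  intro S hS hcard
  obtain ⟨A, hA⟩ : ∃ A : Finset ℂ, A = S.filter (fun s => s.im = 0) := ⟨_, rfl⟩
  rw [← hA]
  rcases Nat.lt_or_ge A.card 2 with h1 | h1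
  · omega
  have hAm : ∀ p, p ∈ A ↔ p ∈ S ∧ p.im = 0 := by
    intro p
    rw [hA, Finset.mem_filter]
  have hinj : Set.InjOn Complex.re (A : Set ℂ) := by
    intro x hx y hy hxy
    rw [Finset.mem_coe, hAm] at hx hy
    exact Complex.ext hxy (by rw [hx.2, hy.2])
  have hc : (A.image Complex.re).card = A.card := Finset.card_image_of_injOn hinj
  have hM1 := hSUM (A.image Complex.re) (by omega)
  obtain ⟨M, hM⟩ : ∃ M : Finset ℝ,
      M = ((A.image Complex.re).offDiag).image (fun x => x.1 + x.2) := ⟨_, rfl⟩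
  rw [← hM, hc] at hM1
  have hMm : ∀ t ∈ M, ∃ p ∈ A, ∃ q ∈ A, p.re ≠ q.re ∧ p.re + q.re = t := by
    intro t ht
    rw [hM, Finset.mem_image] at ht
    obtain ⟨⟨x, y⟩, hxy, rfl⟩ := ht
    rw [Finset.mem_offDiag] at hxy
    obtain ⟨hx, hy, hne⟩ := hxy
    obtain ⟨p, hp, hpx⟩ := Finset.mem_image.1 hx
    obtain ⟨q, hq, hqy⟩ := Finset.mem_image.1 hy
    simp only at hpx hqy hne
    exact ⟨p, hp, q, hq, by rw [hpx, hqy]; exact hne, by rw [hpx, hqy]⟩
  -- the fibres
  obtain ⟨T, hT⟩ : ∃ T : Finset ℂ, T = S.filter (fun s => 2 * s.re ∈ M) := ⟨_, rfl⟩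
  have hT1 : M.card * 2 ≤ T.card := by
    rw [Finset.card_eq_sum_card_fiberwise (s := T) (t := M) (f := fun s => 2 * s.re)
      (fun s hs => by
        rw [Finset.mem_coe, hT, Finset.mem_filter] at hs
        exact hs.2)]
    rw [← smul_eq_mul]
    refine Finset.card_nsmul_le_sum _ _ _ fun t ht => ?_
    obtain ⟨p, hp, q, hq, hpq, rfl⟩ := hMm t ht
    have h2 := hS p ((hAm p).1 hp).1 q ((hAm q).1 hq).1 (fun h => hpq (by rw [h]))
    refine h2.trans (Finset.card_le_card fun s hs => ?_)
    rw [Finset.mem_filter] at hs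
    have h3 := bis s p q ((hAm p).1 hp).2 ((hAm q).1 hq).2 hpq hs.2
    rw [Finset.mem_filter, hT, Finset.mem_filter]
    exact ⟨⟨hs.1, by rw [h3]; exact ht⟩, h3⟩
  -- the two extreme points
  have hne : A.Nonempty := Finset.card_pos.1 (by omega)
  obtain ⟨u, hu, hu'⟩ := A.exists_min_image Complex.re hne
  obtain ⟨v, hv, hv'⟩ := A.exists_max_image Complex.re hne
  have huM : 2 * u.re ∉ M := by
    intro h
    obtain ⟨p, hp, q, hq, hpq, h⟩ := hMm _ h
    have e1 := hu' p hp
    have e2 := hu' q hq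
    exact hpq (by linarith)
  have hvM : 2 * v.re ∉ M := by
    intro h
    obtain ⟨p, hp, q, hq, hpq, h⟩ := hMm _ h
    have e1 := hv' p hp
    have e2 := hv' q hq
    exact hpq (by linarith)
  have huv : u ≠ v := by
    intro h
    obtain ⟨x, hx, y, hy, hxy⟩ := Finset.one_lt_card.1 (show 1 < A.card by omega)
    have e1 := hu' x hx
    have e2 := hu' y hy
    have e3 := hv' x hx
    have e4 := hv' y hy
    rw [← h] at e3 e4
    exact hxy (hinj (Finset.mem_coe.2 hx) (Finset.mem_coe.2 hy) (by linarith))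
  have hT2 : T.card + 2 ≤ S.card := by
    have h3 : T ⊆ S \ {u, v} := by
      intro s hs
      rw [hT, Finset.mem_filter] at hs
      rw [Finset.mem_sdiff, Finset.mem_insert, Finset.mem_singleton]
      refine ⟨hs.1, ?_⟩
      rintro (rfl | rfl)
      · exact huM hs.2
      · exact hvM hs.2
    have h4 : ({u, v} : Finset ℂ) ⊆ S := by
      intro s hs
      rw [Finset.mem_insert, Finset.mem_singleton] at hs
      rcases hs with rfl | rfl
      · exact ((hAm _).1 hu).1
      · exact ((hAm _).1 hv).1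
    have h5 := Finset.card_le_card h3
    rw [Finset.card_sdiff_of_subset h4, Finset.card_pair huv] at h5
    have h6 := Finset.card_le_card h4
    rw [Finset.card_pair huv] at h6
    omega
  omega

end Pool.Agent.Helper88.BR
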