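import Pool.Agent.Helper82.BR.St2

/-!
# Project BR, module BK: transfer back to the plane
-/

set_option autoImplicit false

namespace Pool.Agent.Helper88.BR

open Pool.Agent.Helper82.BR

theorem hBK : StBK := by
  classical
  intro T hT hR
  have hinj : Function.Injective Complex.orthonormalBasisOneI.repr :=
    Complex.orthonormalBasisOneI.repr.injective
  have hfin : (Complex.orthonormalBasisOneI.repr '' (T : Set ℂ)).Finite := T.finite_toSet.image _
  have hcard : (Complex.orthonormalBasisOneI.repr '' (T : Set ℂ)).ncard = T.card := by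
    rw [Set.ncard_image_of_injective _ hinj, Set.ncard_coe_finset]
  refine ⟨Complex.orthonormalBasisOneI.repr '' (T : Set ℂ), ⟨hfin, ?_, ?_⟩, hcard⟩
  · rw [hcard]
    exact hT
  · rintro _ ⟨a, ha, rfl⟩ _ ⟨b, hb, rfl⟩ hab
    have h1 := hR a ha b hb (fun h => hab (by rw [h]))
    have h2 : (Complex.orthonormalBasisOneI.repr ''
        ((T.filter (fun s => dist s a = dist s b) : Finset ℂ) : Set ℂ)).ncard =
        (T.filter (fun s => dist s a = dist s b)).card := by
      rw [Set.ncard_image_of_injective _ hinj, Set.ncard_coe_finset]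
    rw [← h2] at h1
    refine h1.trans (Set.ncard_le_ncard ?_ (hfin.subset Set.inter_subset_right))
    rintro _ ⟨s, hs, rfl⟩
    rw [Finset.mem_coe, Finset.mem_filter] at hs
    refine ⟨?_, ⟨s, hs.1, rfl⟩⟩
    rw [SetLike.mem_coe, AffineSubspace.mem_perpBisector_iff_dist_eq,
      LinearIsometryEquiv.dist_map, LinearIsometryEquiv.dist_map]
    exact hs.2

end Pool.Agent.Helper88.BR
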