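import Pool.Agent.Helper82.BR.St3

/-!
# Project BR8, module NA1
-/

set_option autoImplicit false

namespace Pool.Agent.Helper88.BR

open scoped ComplexConjugate
open Pool.Agent.Helper82.BR

private lemma bis (s p q : ℂ) (hp : p.im = 0) (hq : q.im = 0) (hpq : p.re ≠ q.re)
    (h : dist s p = dist s q) : 2 * s.re = p.re + q.re := by
  rw [Complex.dist_eq, Complex.dist_eq] at h
  have h1 : Complex.normSq (s - p) = Complex.normSq (s - q) := by
    rw [Complex.normSq_eq_norm_sq, Complex.normSq_eq_norm_sq, h]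
  rw [Complex.normSq_apply, Complex.normSq_apply] at h1
  simp only [Complex.sub_re, Complex.sub_im, hp, hq, sub_zero] at h1
  have h2 : (q.re - p.re) * (2 * s.re - (p.re + q.re)) = 0 := by linarith
  rcases mul_eq_zero.1 h2 with h3 | h3
  · exact absurd (by linarith) hpq
  · linarith

private lemma vcard (S : Finset ℂ) (hR : Rich S) (p q : ℂ) (hpS : p ∈ S) (hqS : q ∈ S)
    (hp : p.im = 0) (hq : q.im = 0) (hpq : p.re ≠ q.re) :
    2 ≤ (S.filter (fun s => 2 * s.re = p.re + q.re)).card := by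
  classical
  refine (hR p hpS q hqS (fun h => hpq (by rw [h]))).trans (Finset.card_le_card fun s hs => ?_)
  rw [Finset.mem_filter] at hs ⊢
  exact ⟨hs.1, bis s p q hp hq hpq hs.2⟩

private lemma three (hSIM : StSIM) (S : Finset ℂ) (hR : Rich S) (h8 : S.card = 8)
    (hA : (S.filter (fun s => s.im = 0)).card = 3) :
    ∃ (T : Finset ℂ) (y0 y1 y2 y3 y4 : ℝ), y0 ≠ 0 ∧ y1 ≠ 0 ∧ y2 ≠ 0 ∧ y3 ≠ 0 ∧ y4 ≠ 0 ∧
    y1 ≠ y2 ∧ y3 ≠ y4 ∧ Rich T ∧
    ∀ z : ℂ, z ∈ T ↔ z = ⟨-1, 0⟩ ∨ z = ⟨0, 0⟩ ∨ z = ⟨1, 0⟩ ∨ z = ⟨0, y0⟩ ∨ z = ⟨-1/2, y1⟩ ∨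
      z = ⟨-1/2, y2⟩ ∨ z = ⟨1/2, y3⟩ ∨ z = ⟨1/2, y4⟩ := by
  classical
  obtain ⟨A, hAd⟩ : ∃ A : Finset ℂ, A = S.filter (fun s => s.im = 0) := ⟨_, rfl⟩
  rw [← hAd] at hA
  have hAm : ∀ p, p ∈ A ↔ p ∈ S ∧ p.im = 0 := by
    intro p
    rw [hAd, Finset.mem_filter]
  have hinj : ∀ x ∈ A, ∀ y ∈ A, x.re = y.re → x = y := by
    intro x hx y hy hxy
    rw [hAm] at hx hy
    exact Complex.ext hxy (by rw [hx.2, hy.2])
  have hne : A.Nonempty := Finset.card_pos.1 (by omega)
  obtain ⟨u, hu, hu'⟩ := A.exists_min_image Complex.re hne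
  obtain ⟨v, hv, hv'⟩ := A.exists_max_image Complex.re hne
  have huv : u ≠ v := by
    intro h
    obtain ⟨x, hx, y, hy, hxy⟩ := Finset.one_lt_card.1 (show 1 < A.card by omega)
    have e1 := hu' x hx
    have e2 := hu' y hy
    have e3 := hv' x hx
    have e4 := hv' y hy
    rw [← h] at e3 e4
    exact hxy (hinj x hx y hy (by linarith))
  have huvA : ({u, v} : Finset ℂ) ⊆ A := by
    intro s hs
    rw [Finset.mem_insert, Finset.mem_singleton] at hs
    rcases hs with rfl | rfl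
    · exact hu
    · exact hv
  have hc1 : (A \ {u, v}).card = 1 := by
    rw [Finset.card_sdiff_of_subset huvA, Finset.card_pair huv, hA]
  obtain ⟨t, ht⟩ := Finset.card_eq_one.1 hc1
  have htm : t ∈ A \ {u, v} := by rw [ht]; exact Finset.mem_singleton_self t
  rw [Finset.mem_sdiff, Finset.mem_insert, Finset.mem_singleton, not_or] at htm
  obtain ⟨htA, htu, htv⟩ := htm
  have hA3 : ∀ s, s ∈ A ↔ s = u ∨ s = t ∨ s = v := by
    intro s
    constructor
    · intro hs
      by_cases h1 : s = u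
      · exact Or.inl h1
      by_cases h2 : s = v
      · exact Or.inr (Or.inr h2)
      have h3 : s ∈ A \ {u, v} := by
        rw [Finset.mem_sdiff, Finset.mem_insert, Finset.mem_singleton, not_or]
        exact ⟨hs, h1, h2⟩
      rw [ht, Finset.mem_singleton] at h3
      exact Or.inr (Or.inl h3)
    · rintro (rfl | rfl | rfl)
      · exact hu
      · exact htA
      · exact hv
  have hut : u.re < t.re := lt_of_le_of_ne (hu' t htA) fun h => htu (hinj u hu t htA h).symm
  have htv' : t.re < v.re := lt_of_le_of_ne (hv' t htA) fun h => htv (hinj t htA v hv h)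
  have hu0 := ((hAm u).1 hu).2
  have ht0 := ((hAm t).1 htA).2
  have hv0 := ((hAm v).1 hv).2
  have huS := ((hAm u).1 hu).1
  have htS := ((hAm t).1 htA).1
  have hvS := ((hAm v).1 hv).1
  have c12 := vcard S hR u t huS htS hu0 ht0 hut.ne
  have c23 := vcard S hR t v htS hvS ht0 hv0 htv'.ne
  have c13 := vcard S hR u v huS hvS hu0 hv0 (hut.trans htv').ne
  obtain ⟨V12, hV12⟩ : ∃ V : Finset ℂ, V = S.filter (fun s => 2 * s.re = u.re + t.re) := ⟨_, rfl⟩
  obtain ⟨V23, hV23⟩ : ∃ V : Finset ℂ, V = S.filter (fun s => 2 * s.re = t.re + v.re) := ⟨_, rfl⟩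
  obtain ⟨V13, hV13⟩ : ∃ V : Finset ℂ, V = S.filter (fun s => 2 * s.re = u.re + v.re) := ⟨_, rfl⟩
  rw [← hV12] at c12
  rw [← hV23] at c23
  rw [← hV13] at c13
  have m12 : ∀ s, s ∈ V12 ↔ s ∈ S ∧ 2 * s.re = u.re + t.re := by
    intro s; rw [hV12, Finset.mem_filter]
  have m23 : ∀ s, s ∈ V23 ↔ s ∈ S ∧ 2 * s.re = t.re + v.re := by
    intro s; rw [hV23, Finset.mem_filter]
  have m13 : ∀ s, s ∈ V13 ↔ s ∈ S ∧ 2 * s.re = u.re + v.re := by
    intro s; rw [hV13, Finset.mem_filter]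
  have hN : (S \ A).card = 5 := by
    rw [Finset.card_sdiff_of_subset (by rw [hAd]; exact Finset.filter_subset _ _), h8, hA]
  have d1 : Disjoint V12 V23 := by
    rw [Finset.disjoint_left]
    intro s h1 h2
    have e1 := ((m12 s).1 h1).2
    have e2 := ((m23 s).1 h2).2
    linarith
  have d2 : Disjoint (V12 ∪ V23) (V13.erase t) := by
    rw [Finset.disjoint_left]
    intro s h1 h2
    have e2 := ((m13 s).1 (Finset.mem_of_mem_erase h2)).2
    rcases Finset.mem_union.1 h1 with h1 | h1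
    · have e1 := ((m12 s).1 h1).2
      linarith
    · have e1 := ((m23 s).1 h1).2
      linarith
  have hU : (V12 ∪ V23) ∪ V13.erase t ⊆ S \ A := by
    intro s hs
    rw [Finset.mem_sdiff]
    rcases Finset.mem_union.1 hs with hs | hs
    · rcases Finset.mem_union.1 hs with hs | hs
      · obtain ⟨e1, e2⟩ := (m12 s).1 hs
        refine ⟨e1, fun h => ?_⟩
        rcases (hA3 s).1 h with rfl | rfl | rfl <;> linarith
      · obtain ⟨e1, e2⟩ := (m23 s).1 hs
        refine ⟨e1, fun h => ?_⟩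
        rcases (hA3 s).1 h with rfl | rfl | rfl <;> linarith
    · obtain ⟨e1, e2⟩ := (m13 s).1 (Finset.mem_of_mem_erase hs)
      refine ⟨e1, fun h => ?_⟩
      rcases (hA3 s).1 h with rfl | h | rfl
      · linarith
      · exact Finset.ne_of_mem_erase hs h
      · linarith
  have hUc := Finset.card_le_card hU
  rw [Finset.card_union_of_disjoint d2, Finset.card_union_of_disjoint d1, hN] at hUc
  have htV : t ∈ V13 := by
    by_contra h
    rw [Finset.erase_eq_of_notMem h] at hUc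
    omega
  have hmid : 2 * t.re = u.re + v.re := ((m13 t).1 htV).2
  have hce := Finset.card_erase_of_mem htV
  have k12 : V12.card = 2 := by omega
  have k23 : V23.card = 2 := by omega
  have k13 : (V13.erase t).card = 1 := by omega
  have hUeq : (V12 ∪ V23) ∪ V13.erase t = S \ A := by
    refine Finset.eq_of_subset_of_card_le hU ?_
    rw [Finset.card_union_of_disjoint d2, Finset.card_union_of_disjoint d1, hN]
    omega
  obtain ⟨p1, p2, hp12, e12⟩ := Finset.card_eq_two.1 k12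
  obtain ⟨p3, p4, hp34, e34⟩ := Finset.card_eq_two.1 k23
  obtain ⟨p0, e0⟩ := Finset.card_eq_one.1 k13
  have hSm : ∀ s, s ∈ S ↔ s = u ∨ s = t ∨ s = v ∨ s = p0 ∨ s = p1 ∨ s = p2 ∨ s = p3 ∨ s = p4 := by
    intro s
    have h1 : s ∈ S ↔ s ∈ A ∨ s ∈ S \ A := by
      rw [Finset.mem_sdiff]
      constructor
      · intro h
        by_cases hs : s ∈ A
        · exact Or.inl hs
        · exact Or.inr ⟨h, hs⟩
      · rintro (h | h)
        · exact ((hAm s).1 h).1
        · exact h.1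
    rw [h1, hA3, ← hUeq, Finset.mem_union, Finset.mem_union, e12, e34, e0, Finset.mem_insert,
      Finset.mem_insert, Finset.mem_singleton, Finset.mem_singleton, Finset.mem_singleton]
    tauto
  have im0 : ∀ s, s ∈ (V12 ∪ V23) ∪ V13.erase t → s.im ≠ 0 := by
    intro s hs h
    have h1 := Finset.mem_sdiff.1 (hU hs)
    exact h1.2 ((hAm s).2 ⟨h1.1, h⟩)
  have q1 : p1 ∈ V12 := by rw [e12]; simp
  have q2 : p2 ∈ V12 := by rw [e12]; simp
  have q3 : p3 ∈ V23 := by rw [e34]; simp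
  have q4 : p4 ∈ V23 := by rw [e34]; simp
  have q0 : p0 ∈ V13.erase t := by rw [e0]; simp
  have i1 := im0 p1 (Finset.mem_union_left _ (Finset.mem_union_left _ q1))
  have i2 := im0 p2 (Finset.mem_union_left _ (Finset.mem_union_left _ q2))
  have i3 := im0 p3 (Finset.mem_union_left _ (Finset.mem_union_right _ q3))
  have i4 := im0 p4 (Finset.mem_union_left _ (Finset.mem_union_right _ q4))
  have i0 := im0 p0 (Finset.mem_union_right _ q0)
  have r1 := ((m12 p1).1 q1).2
  have r2 := ((m12 p2).1 q2).2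
  have r3 := ((m23 p3).1 q3).2
  have r4 := ((m23 p4).1 q4).2
  have r0 := ((m13 p0).1 (Finset.mem_of_mem_erase q0)).2
  obtain ⟨d, hd⟩ : ∃ d : ℝ, d = v.re - t.re := ⟨_, rfl⟩
  have hd0 : 0 < d := by linarith
  have ha : ((1 / d : ℝ) : ℂ) ≠ 0 := by
    rw [Ne, Complex.ofReal_eq_zero]
    positivity
  have hφ : ∀ s : ℂ, ((1 / d : ℝ) : ℂ) * (s - t) = ⟨(s.re - t.re) / d, s.im / d⟩ := by
    intro s
    apply Complex.ext
    · rw [Complex.re_ofReal_mul, Complex.sub_re]
      simp only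
      ring
    · rw [Complex.im_ofReal_mul, Complex.sub_im, ht0, sub_zero]
      simp only
      ring
  refine ⟨S.image (fun s => ((1 / d : ℝ) : ℂ) * (s - t)), p0.im / d, p1.im / d, p2.im / d,
    p3.im / d, p4.im / d, div_ne_zero i0 hd0.ne', div_ne_zero i1 hd0.ne', div_ne_zero i2 hd0.ne',
    div_ne_zero i3 hd0.ne', div_ne_zero i4 hd0.ne', ?_, ?_, hSIM S _ t ha hR, fun z => ?_⟩
  · intro h
    have h1 : p1.im = p2.im := by
      field_simp at h
      exact h
    exact hp12 (Complex.ext (by linarith) h1)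
  · intro h
    have h1 : p3.im = p4.im := by
      field_simp at h
      exact h
    exact hp34 (Complex.ext (by linarith) h1)
  · have fu : (u.re - t.re) / d = -1 := by rw [div_eq_iff hd0.ne']; linarith
    have fv : (v.re - t.re) / d = 1 := by rw [div_eq_iff hd0.ne']; linarith
    have f0 : (p0.re - t.re) / d = 0 := by rw [div_eq_iff hd0.ne']; linarith
    have f1 : (p1.re - t.re) / d = -1 / 2 := by rw [div_eq_iff hd0.ne']; linarith
    have f2 : (p2.re - t.re) / d = -1 / 2 := by rw [div_eq_iff hd0.ne']; linarith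
    have f3 : (p3.re - t.re) / d = 1 / 2 := by rw [div_eq_iff hd0.ne']; linarith
    have f4 : (p4.re - t.re) / d = 1 / 2 := by rw [div_eq_iff hd0.ne']; linarith
    have hz : z ∈ S.image (fun s => ((1 / d : ℝ) : ℂ) * (s - t)) ↔
        z = ((1 / d : ℝ) : ℂ) * (u - t) ∨ z = ((1 / d : ℝ) : ℂ) * (t - t) ∨
        z = ((1 / d : ℝ) : ℂ) * (v - t) ∨ z = ((1 / d : ℝ) : ℂ) * (p0 - t) ∨
        z = ((1 / d : ℝ) : ℂ) * (p1 - t) ∨ z = ((1 / d : ℝ) : ℂ) * (p2 - t) ∨
        z = ((1 / d : ℝ) : ℂ) * (p3 - t) ∨ z = ((1 / d : ℝ) : ℂ) * (p4 - t) := by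
      rw [Finset.mem_image]
      constructor
      · rintro ⟨s, hs, rfl⟩
        rcases (hSm s).1 hs with h | h | h | h | h | h | h | h <;> rw [h] <;> simp
      · rintro (h | h | h | h | h | h | h | h)
        · exact ⟨u, (hSm _).2 (by simp), h.symm⟩
        · exact ⟨t, (hSm _).2 (by simp), h.symm⟩
        · exact ⟨v, (hSm _).2 (by simp), h.symm⟩
        · exact ⟨p0, (hSm _).2 (by simp), h.symm⟩
        · exact ⟨p1, (hSm _).2 (by simp), h.symm⟩
        · exact ⟨p2, (hSm _).2 (by simp), h.symm⟩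
        · exact ⟨p3, (hSm _).2 (by simp), h.symm⟩
        · exact ⟨p4, (hSm _).2 (by simp), h.symm⟩
    rw [hz, hφ, hφ, hφ, hφ, hφ, hφ, hφ, hφ, fu, fv, f0, f1, f2, f3, f4, hu0, hv0, ht0, sub_self,
      zero_div]

theorem hNA1 (hLIN : StLIN) (hSIM : StSIM) : StNA1 := by
  classical
  intro S hR h8 ⟨x, hx, y, hy, z, hz, hxy, hxz, hyz, him⟩
  have ha : conj (y - z) ≠ 0 := by
    rw [Ne, map_eq_zero]
    exact sub_ne_zero.2 hyz
  have hinj : Function.Injective (fun s : ℂ => conj (y - z) * (s - z)) := by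
    intro a b hab
    have h1 := mul_left_cancel₀ ha hab
    exact sub_left_injective h1
  obtain ⟨S1, hS1⟩ : ∃ S1 : Finset ℂ, S1 = S.image (fun s : ℂ => conj (y - z) * (s - z)) := ⟨_, rfl⟩
  have hR1 : Rich S1 := by
    rw [hS1]
    exact hSIM S _ z ha hR
  have hc : S1.card = 8 := by
    rw [hS1, Finset.card_image_of_injective _ hinj, h8]
  have hl := hLIN S1 hR1 (by omega)
  refine three hSIM S1 hR1 hc ?_
  have h3 : 3 ≤ (S1.filter (fun s => s.im = 0)).card := by
    have h4 : ({conj (y - z) * (x - z), conj (y - z) * (y - z), conj (y - z) * (z - z)} : Finset ℂ) ⊆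
        S1.filter (fun s => s.im = 0) := by
      intro s hs
      rw [Finset.mem_insert, Finset.mem_insert, Finset.mem_singleton] at hs
      rw [Finset.mem_filter, hS1]
      rcases hs with rfl | rfl | rfl
      · refine ⟨Finset.mem_image_of_mem _ hx, ?_⟩
        rw [mul_comm]
        exact him
      · refine ⟨Finset.mem_image_of_mem (fun s : ℂ => conj (y - z) * (s - z)) hy, ?_⟩
        rw [mul_comm, Complex.mul_conj]
        exact Complex.ofReal_im _
      · refine ⟨Finset.mem_image_of_mem (fun s : ℂ => conj (y - z) * (s - z)) hz, ?_⟩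
        simp
    have h5 := Finset.card_le_card h4
    rw [Finset.card_insert_of_notMem, Finset.card_pair] at h5
    · exact h5
    · exact fun h => hyz (hinj h)
    · rw [Finset.mem_insert, Finset.mem_singleton, not_or]
      exact ⟨fun h => hxy (hinj h), fun h => hxz (hinj h)⟩
  omega

end Pool.Agent.Helper88.BR
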